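import Pool.Agent.Helper60.PlzA.Goals

set_option autoImplicit false

namespace Pool.Agent.Helper8.PlzA

open Finset Pool.Agent.Helper93.Plz Pool.Agent.Helper60.PlzA

open scoped Classical

theorem expos (h1 : S_EXCH) : S_EXPOS := by
  intro V _ G M σ hopt
  have hpos : ∀ x j, 0 ≤ exc G σ x j := by
    intro x j
    by_cases hj : j = σ x
    · rw [hj]; simp [exc]
    · have h := h1 V _ G M σ hopt (σ x) {x} ∅ (fun _ => j) (by simp) (by simp) (by simp)
        (by simp) (by simpa using hj)
      have e1 : eb G {x} ∅ = 0 := by simp [eb]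
      have e2' : e2 G ({x} : Finset V) = 0 := by simp [e2, eb]
      have e3 : e2 G (∅ : Finset V) = 0 := by simp [e2, eb]
      rw [e1, e2', e3] at h
      simp only [Finset.sum_empty, Finset.sum_singleton, Nat.cast_zero] at h
      linarith
  refine ⟨hpos, fun s x hd => ?_⟩
  have hM : 0 < M := lt_of_le_of_lt (Nat.zero_le _) (σ x).2
  have hsum : ∑ j, Dp G σ x j = dgr G x := by
    unfold dgr nbs
    rw [Finset.card_eq_sum_card_fiberwise (f := σ) (t := univ) (fun a _ => by simp)]
    refine Finset.sum_congr rfl fun j _ => ?_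
    unfold Dp
    rw [Finset.filter_filter]
  have hle : ∀ j, Dp G σ x (σ x) ≤ Dp G σ x j := by
    intro j
    have h := hpos x j
    unfold exc at h
    have h2 : (Dp G σ x (σ x) : ℝ) ≤ Dp G σ x j := by linarith
    exact_mod_cast h2
  have h3 : M * Dp G σ x (σ x) ≤ ∑ j, Dp G σ x j := by
    have := Finset.card_nsmul_le_sum (univ : Finset (Fin M)) (fun j => Dp G σ x j)
      (Dp G σ x (σ x)) (fun j _ => hle j)
    simpa using this
  have h4 : M * Dp G σ x (σ x) ≤ M * s := by
    calc _ ≤ _ := h3
      _ = dgr G x := hsum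
      _ ≤ _ := hd
  exact Nat.le_of_mul_le_mul_left h4 hM

end Pool.Agent.Helper8.PlzA
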