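import Pool.Agent.Helper60.PlzA.Goals

set_option autoImplicit false

namespace Pool.Agent.Helper8.PlzA

open Finset Pool.Agent.Helper93.Plz Pool.Agent.Helper60.PlzA

open scoped Classical

theorem goodev : S_GOODEV := by
  intro V _ G k x hx hinj ha hb hc
  have hw : ∀ i < k, G.Adj (ev x i) (ev x (i + 1)) := by
    simpa [Wk] using hx
  have h1 : ∀ n i j, j = i + n → i < j → j ≤ k → G.Adj (ev x i) (ev x j) →
      ∀ l, i < l → l < j → Tr G x l := by
    intro n
    induction n using Nat.strong_induction_on with
    | _ n ih =>
      intro i j hj hij hjk hadj l hl1 hl2
      by_cases hn : n ≤ 2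
      · have hl : l = i + 1 := by omega
        have hj2 : j = i + 2 := by omega
        subst hl
        unfold Tr
        have e1 : i + 1 - 1 = i := by omega
        have e2 : i + 1 + 1 = j := by omega
        rw [e1, e2]
        exact hadj
      · have q1 : G.Adj (ev x i) (ev x (j - 1)) := by
          by_contra hcon
          have := ha i (j - 1) (by omega) (by omega) hcon
          have e : j - 1 + 1 = j := by omega
          rw [e] at this
          exact this hadj
        have q2 : G.Adj (ev x (i + 1)) (ev x j) := by
          by_contra hcon
          have := hb (i + 1) j (by omega) (by omega) hjk hcon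
          have e : i + 1 - 1 = i := by omega
          rw [e] at this
          exact this hadj
        by_cases hlj : l < j - 1
        · exact ih (n - 1) (by omega) i (j - 1) (by omega) (by omega) (by omega) q1 l hl1 hlj
        · exact ih (n - 1) (by omega) (i + 1) j (by omega) (by omega) hjk q2 l (by omega) hl2
  have h2 : ∀ n i j, j = i + n → i < j → j ≤ k → (∀ l, i < l → l < j → Tr G x l) →
      G.Adj (ev x i) (ev x j) := by
    intro n
    induction n using Nat.strong_induction_on with
    | _ n ih =>
      intro i j hj hij hjk htr
      by_cases hn1 : n = 1
      · have : j = i + 1 := by omega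
        rw [this]
        exact hw i (by omega)
      by_cases hn2 : n = 2
      · have := htr (i + 1) (by omega) (by omega)
        unfold Tr at this
        have e1 : i + 1 - 1 = i := by omega
        have e2 : i + 1 + 1 = j := by omega
        rw [e1, e2] at this
        exact this
      · have q1 : G.Adj (ev x i) (ev x (j - 1)) :=
          ih (n - 1) (by omega) i (j - 1) (by omega) (by omega) (by omega)
            (fun l hl1 hl2 => htr l hl1 (by omega))
        have q2 : G.Adj (ev x i) (ev x (j - 2)) :=
          ih (n - 2) (by omega) i (j - 2) (by omega) (by omega) (by omega)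
            (fun l hl1 hl2 => htr l hl1 (by omega))
        have q3 : G.Adj (ev x (j - 2)) (ev x j) := by
          have := htr (j - 1) (by omega) (by omega)
          unfold Tr at this
          have e1 : j - 1 - 1 = j - 2 := by omega
          have e2 : j - 1 + 1 = j := by omega
          rw [e1, e2] at this
          exact this
        exact hc i j (by omega) hjk q1 q2 q3
  exact ⟨hinj, fun i j hij hjk => ⟨fun hadj l hl1 hl2 =>
    h1 (j - i) i j (by omega) hij hjk hadj l hl1 hl2,
    fun htr => h2 (j - i) i j (by omega) hij hjk htr⟩⟩

end Pool.Agent.Helper8.PlzA
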